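import Pool.Agent.TH127.PD.Defs

/-!
# Single correspondences and homologically trivial cycles: definitions
-/

open CategoryTheory AlgebraicGeometry

universe u v w

namespace Pool.Agent.TH127.SW

open Pool.Agent.H914 Pool.Agent.H914.VarClass Pool.Agent.H914.VarClass.Obj Pool.Agent.W492.BB
  Pool.Agent.W550.Corr Pool.Agent.TH133

variable {k : Type u} [Field k] {𝒱 : VarClass k} {C : TheoryData.{u, v, 0} 𝒱 ℚ} {K : Type w}
  [Field K]

/-- The self-correspondences `γ ∈ CH^d(X × X)`, `d = dim X`, which act as zero on `H^(2m-1)(X)` act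
locally nilpotently on `CH^m(X)_hom`. -/
def NilpotentOffWeight (H : WeilTheoryData.{u, v, w} C K) (X : 𝒱.Obj) (m : ℕ) : Prop :=
  ∀ γ : C.A (X.prod X), C.Deg X.dim γ → Kills H γ (2 * m - 1) →
    ∀ z ∈ homTriv H X m, ∃ n : ℕ, (C.act γ)^[n] z = 0

/-- The self-correspondences `γ ∈ CH^d(X × X)`, `d = dim X`, which act as zero on `H^j(X)` for all
`j ≠ d` act locally nilpotently on `CH^m(X)_hom`. -/
def NilpotentMiddle (H : WeilTheoryData.{u, v, w} C K) (X : 𝒱.Obj) (m : ℕ) : Prop :=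
  ∀ γ : C.A (X.prod X), C.Deg X.dim γ → (∀ j : ℤ, j ≠ X.dim → Kills H γ j) →
    ∀ z ∈ homTriv H X m, ∃ n : ℕ, (C.act γ)^[n] z = 0

/-- `CH^m(X)_hom` is controlled by `H^(2m-1)(X)`: all correspondences `γ ∈ CH^l(X × Y)` which act as
zero on `H^(2m-1)(X)` act as zero on `CH^m(X)_hom`, for all `X`, `Y`, `l` and `m`. -/
def ControlledByCohomology (H : WeilTheoryData.{u, v, w} C K) : Prop :=
  ∀ (X Y : 𝒱.Obj) (l m : ℕ) (γ : C.A (X.prod Y)), C.Deg l γ → Kills H γ (2 * m - 1) →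
    ∀ z ∈ homTriv H X m, C.act γ z = 0

/-- The exterior products of homologically trivial cycles vanish. -/
def HomProductsVanish (H : WeilTheoryData.{u, v, w} C K) : Prop :=
  ∀ (X Y : 𝒱.Obj) (i j : ℕ), ∀ z ∈ homTriv H X i, ∀ w ∈ homTriv H Y j, C.ext z w = 0

end Pool.Agent.TH127.SW
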