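import Pool.Agent.TH127.PD.Main
import Pool.Agent.TH127.SW.Defs

/-!
# Single correspondences and homologically trivial cycles
-/

open CategoryTheory AlgebraicGeometry

universe u v w

namespace Pool.Agent.TH127.SW

open Pool.Agent.H914 Pool.Agent.H914.VarClass Pool.Agent.H914.VarClass.Obj Pool.Agent.W492.BB
  Pool.Agent.W550.Corr Pool.Agent.TH133 Pool.Agent.TH116.ZC Pool.Agent.TH127.PD

set_option linter.unusedSectionVars false

variable {k : Type u} [Field k] {𝒱 : VarClass k} {C : TheoryData.{u, v, 0} 𝒱 ℚ}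
  [hC : IsChowProj C] {K : Type w} [Field K]
  {H : WeilTheoryData.{u, v, w} C K} [hH : IsWeilProj H] {X Y Z W : 𝒱.Obj}

include hC hH

/-- Homologically trivial classes of codimension `i` have no components of weight `j ≠ 2 i - 1`. -/
theorem act_zero_ne (hcurve : ∃ T : 𝒱.Obj, T.dim = 1)
    (hM : ∀ (X : 𝒱.Obj) (m : ℕ), X.dim + 1 ≠ 2 * m → NilpotentMiddle H X m) :
    ∀ (X : 𝒱.Obj) (π : ℕ → C.A (X.prod X)), IsCK H X π → ∀ i j : ℕ, j + 1 ≠ 2 * i →
      ∀ x ∈ homTriv H X i, C.act (π j) x = 0 := by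
  obtain ⟨T, hT⟩ := hcurve
  have hS := isStableFamily_hom (C := C) (H := H)
  have h0 : ∀ (X : 𝒱.Obj) (π : ℕ → C.A (X.prod X)), IsCK H X π →
      ∀ i j : ℕ, j + 1 ≠ 2 * i → X.dim = j → ∀ x ∈ homTriv H X i, C.act (π j) x = 0 := by
    intro X π hπ i j hj hd x hx
    obtain ⟨m, hm⟩ := hM X i (by omega) (π j) (hπ.deg _)
      (fun l hl a ha => hπ.act_ne _ l a (by omega) ha) x hx
    exact act_zero_of_iterate (H := H) (hπ.idem _) hm
  have h1 : ∀ (δ : ℕ) (X : 𝒱.Obj) (π : ℕ → C.A (X.prod X)), IsCK H X π →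
      ∀ i j : ℕ, j + 1 ≠ 2 * i → X.dim = j + δ → ∀ x ∈ homTriv H X i,
        C.act (π j) x = 0 := by
    intro δ
    induction δ with
    | zero => exact fun X π hπ i j hj hd x hx => h0 X π hπ i j hj (by omega) x hx
    | succ δ ih =>
      intro X π hπ i j hj hd x hx
      obtain ⟨τ, hτ, -⟩ := exists_CK_curve (C := C) H T hT
      obtain ⟨w, hw, hdw⟩ := exists_hasDegree_one (C := C) H T
      have h2 := ih (X.prod T) (prodCK C π τ) (hπ.prod hτ) (i + 1) (j + 2)
        (by omega) (by rw [dim_prod, hT]; omega) (C.ext (C.act (π j) x) w)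
        (hS.ext hT (by rw [hT] at hw; exact_mod_cast hw) (hS.act (hπ.deg _) hx))
      rw [act_prodCK_ext (H := H) (j := j) (act_component hπ _ _) (by omega)] at h2
      have e1 : j + 2 - j = 2 * T.dim := by rw [hT]; omega
      rw [e1] at h2
      exact eq_zero_of_ext (hasDegree_act_top hτ hw hdw) h2
  have h2 : ∀ (δ : ℕ) (X : 𝒱.Obj) (π : ℕ → C.A (X.prod X)), IsCK H X π →
      ∀ i j : ℕ, j + 1 ≠ 2 * i → X.dim + δ = j → ∀ x ∈ homTriv H X i,
        C.act (π j) x = 0 := by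
    intro δ
    induction δ with
    | zero => exact fun X π hπ i j hj hd x hx => h0 X π hπ i j hj (by omega) x hx
    | succ δ ih =>
      intro X π hπ i j hj hd x hx
      obtain ⟨τ, hτ, -⟩ := exists_CK_curve (C := C) H T hT
      obtain ⟨w, hw, hdw⟩ := exists_hasDegree_one (C := C) H T
      have h2 := ih (X.prod T) (prodCK C π τ) (hπ.prod hτ) (i + 0) j
        (by omega) (by rw [dim_prod, hT]; omega) (C.ext (C.act (π j) x) 1)
        (hS.ext hT (by exact_mod_cast C.one_mem T) (hS.act (hπ.deg _) hx))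
      rw [act_prodCK_ext (H := H) (j := j) (act_component hπ _ _) le_rfl, Nat.sub_self,
        act_bot_one hτ] at h2
      exact eq_zero_of_ext_one hdw h2
  intro X π hπ i j hij x hx
  rcases le_total j X.dim with h | h
  · exact h1 (X.dim - j) X π hπ i j hij (by omega) x hx
  · exact h2 (j - X.dim) X π hπ i j hij (by omega) x hx

lemma homTriv_zero {z : C.A X} (hz : z ∈ homTriv H X 0) : z = 0 :=
  eq_zero_of_gr_zero (H := H) (by exact_mod_cast hz.1) hz.2

lemma act_eq_self {π : ℕ → C.A (X.prod X)} (hπ : IsCK H X π) {m : ℕ} (hm : 1 ≤ m)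
    {z : C.A X} (h : ∀ j : ℕ, j + 1 ≠ 2 * m → C.act (π j) z = 0) (p : ℕ) :
    C.act (π p) z = if p = 2 * m - 1 then z else 0 := by
  split_ifs with hp
  · have h1 : z = ∑ j ∈ Finset.range (2 * X.dim + 1), C.act (π j) z := by
      rw [← act_sum, hπ.sum, act_dg]
    by_cases h2 : p < 2 * X.dim + 1
    · rw [Finset.sum_eq_single p (fun j _ hj => h j (by omega))
        (fun h3 => absurd (Finset.mem_range.2 h2) h3)] at h1
      exact h1.symm
    · rw [Finset.sum_eq_zero (fun j hj => h j (by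
        have := Finset.mem_range.1 hj
        omega))] at h1
      rw [h1, C.act_map_zero]
  · exact h p (by omega)

lemma ext_homTriv {i j : ℕ} {z : C.A X} {w : C.A Y} (hz : z ∈ homTriv H X i)
    (hw : C.Deg j w) : C.ext z w ∈ homTriv H (X.prod Y) (i + j) := by
  refine ⟨?_, ?_⟩
  · have := ext_mem' hz.1 hw
    exact_mod_cast this
  · change H.cl (C.ext z w) = 0
    have h : H.cl z = 0 := hz.2
    rw [TheoryData.ext, map_mul, H.cl_pull, h, map_zero, zero_mul]

lemma ext_zero_of_ck (hA : ∀ X : 𝒱.Obj, ∃ π : ℕ → C.A (X.prod X), IsCK H X π)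
    (h : ∀ (X : 𝒱.Obj) (π : ℕ → C.A (X.prod X)), IsCK H X π → ∀ i j : ℕ, j + 1 ≠ 2 * i →
      ∀ x ∈ homTriv H X i, C.act (π j) x = 0) : HomProductsVanish H := by
  intro X Y i j z hz w hw
  rcases Nat.eq_zero_or_pos i with rfl | hi
  · rw [homTriv_zero hz, TheoryData.ext_zero_left]
  rcases Nat.eq_zero_or_pos j with rfl | hj
  · rw [homTriv_zero hw, TheoryData.ext, map_zero, mul_zero]
  obtain ⟨π, hπ⟩ := hA X
  obtain ⟨τ, hτ⟩ := hA Y
  have h1 := act_eq_self hπ hi (fun p hp => h X π hπ i p hp z hz)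
  have h2 := act_eq_self hτ hj (fun p hp => h Y τ hτ j p hp w hw)
  have h3 := h (X.prod Y) (prodCK C π τ) (hπ.prod hτ) (i + j) (2 * i - 1 + (2 * j - 1))
    (by omega) (C.ext z w) (ext_homTriv hz hw.1)
  rw [act_prodCK_ext (H := H) (j := 2 * i - 1) h1 (by omega), Nat.add_sub_cancel_left, h2,
    if_pos rfl] at h3
  exact h3

omit hH in
lemma act_zero_of_ext {Γ : C.A (X.prod Y)} {z : C.A X} (h : C.ext Γ z = 0) :
    C.act Γ z = 0 := by
  have h1 : C.pull (Obj.lift (𝟙 (X.prod Y)) (fst X Y)) (C.ext Γ z) = Γ * C.pull (fst X Y) z := by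
    rw [TheoryData.ext, map_mul, ← C.pull_comp, ← C.pull_comp, lift_fst, lift_snd, C.pull_id]
  rw [h, map_zero] at h1
  rw [TheoryData.act_apply, ← h1, map_zero]

lemma controlled_of_middle (hK : KunnethConjecture H) (hcurve : ∃ T : 𝒱.Obj, T.dim = 1)
    (hM : ∀ (X : 𝒱.Obj) (m : ℕ), X.dim + 1 ≠ 2 * m → NilpotentMiddle H X m) :
    ControlledByCohomology H ∧ HomProductsVanish H := by
  have hN : ∀ X : 𝒱.Obj, HomTrivialNilpotent H X := fun X =>
    homTrivialNilpotent_of_middle fun i hi γ hγ hkill z hz hz0 =>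
      hM (X.prod X) i (by omega) γ hγ hkill z ⟨hz, hz0⟩
  have hA : ∀ X : 𝒱.Obj, ∃ π : ℕ → C.A (X.prod X), IsCK H X π := fun X =>
    exists_CK_of_nilpotent hK (hN X)
  have h := act_zero_ne hcurve hM
  have hE := ext_zero_of_ck hA h
  refine ⟨?_, hE⟩
  intro X Y l m γ hγ hkill z hz
  rcases Nat.eq_zero_or_pos m with rfl | hm
  · rw [homTriv_zero hz, TheoryData.act_map_zero]
  obtain ⟨π, hπ⟩ := hA X
  have h1 := act_eq_self hπ hm (fun p hp => h X π hπ m p hp z hz) (2 * m - 1)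
  rw [if_pos rfl] at h1
  rw [← h1, ← C.act_comp]
  apply act_zero_of_ext
  apply hE (X.prod Y) X l m _ ?_ z hz
  refine ⟨?_, ?_⟩
  · have h2 : π (2 * m - 1) ∈ C.gr (X.prod X) (X.dim + (0 : ℤ)) := by
      rw [add_zero]; exact hπ.deg _
    have h3 : γ ∈ C.gr (X.prod Y) (X.dim + ((l : ℤ) - X.dim)) := by
      have e1 : (X.dim : ℤ) + ((l : ℤ) - X.dim) = l := by ring
      rw [e1]; exact hγ
    have := comp_mem C h2 h3
    have e1 : (X.dim : ℤ) + (0 + ((l : ℤ) - X.dim)) = l := by ring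
    rwa [e1] at this
  · change H.cl _ = 0
    apply eq_zero_of_act
    intro a
    have h4 : H.actL (H.cl (C.comp (π (2 * m - 1)) γ)) = 0 := by
      apply ext_gr H
      intro j b hb
      rw [LinearMap.zero_apply, TheoryData.actL_apply, cl_comp, H.act_comp]
      by_cases hj : j = ((2 * m - 1 : ℕ) : ℤ)
      · rw [hπ.act_self (2 * m - 1) b (by rw [hj] at hb; exact hb)]
        apply hkill
        have e1 : ((2 * m - 1 : ℕ) : ℤ) = 2 * (m : ℤ) - 1 := by omega
        rw [hj, e1] at hb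
        exact hb
      · rw [hπ.act_ne (2 * m - 1) j b hj hb, TheoryData.act_map_zero]
    exact LinearMap.congr_fun h4 a

/-- **Single correspondences control homologically trivial cycles.** -/
theorem controlled_tfae (hK : KunnethConjecture H) (hcurve : ∃ T : 𝒱.Obj, T.dim = 1) :
    List.TFAE [ControlledByCohomology H, ∀ (X : 𝒱.Obj) (m : ℕ), NilpotentOffWeight H X m,
      ∀ (X : 𝒱.Obj) (m : ℕ), X.dim + 1 ≠ 2 * m → NilpotentMiddle H X m] := by
  tfae_have 1 → 2 := fun h X m γ hγ hkill z hz => ⟨1, h X X X.dim m γ hγ hkill z hz⟩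
  tfae_have 2 → 3 := fun h X m hm γ hγ hkill z hz => h X m γ hγ (hkill _ (by omega)) z hz
  tfae_have 3 → 1 := fun h => (controlled_of_middle hK hcurve h).1
  tfae_finish

lemma controlled_of_injective {T : AbelJacobi H} (hT : T.IsFunctorial) (h : AJInjective T) :
    ControlledByCohomology H := by
  intro X Y l m γ hγ hkill z hz
  by_cases hj : X.dim ≤ m + l
  · obtain ⟨j, hj⟩ : ∃ j, m + l = j + X.dim := ⟨m + l - X.dim, by omega⟩
    exact h Y j _ (ker_of_kills hT hγ hj hkill hz)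
  · have h1 : γ ∈ C.gr (X.prod Y) (X.dim + ((l : ℤ) - X.dim)) := by
      have e1 : (X.dim : ℤ) + ((l : ℤ) - X.dim) = l := by ring
      rw [e1]; exact hγ
    have h2 := act_mem' C h1 hz.1
    rw [C.gr_neg Y _ (by omega)] at h2
    exact (Submodule.mem_bot _).1 h2

/-- **Injectivity of the Abel-Jacobi maps and single correspondences.** -/
theorem injective_tfae (hK : KunnethConjecture H) (hcurve : ∃ T : 𝒱.Obj, T.dim = 1)
    {T : AbelJacobi H} (hT : T.IsFunctorial) (hT' : T.HasCurveProjectors) :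
    List.TFAE [AJInjective T,
      (∀ (X : 𝒱.Obj) (m : ℕ), NilpotentOffWeight H X m) ∧ KerInAlg T,
      (∀ (X : 𝒱.Obj) (m : ℕ), X.dim + 1 ≠ 2 * m → NilpotentMiddle H X m) ∧
        KerInAlgAddImage T] := by
  tfae_have 1 → 2 := fun h =>
    ⟨((controlled_tfae hK hcurve).out 0 1).1 (controlled_of_injective hT h),
      fun X i z hz => Or.inl (h X i z hz)⟩
  tfae_have 2 → 3 := by
    rintro ⟨h1, h2⟩
    refine ⟨((controlled_tfae hK hcurve).out 1 2).1 h1, fun X i z hz => ?_⟩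
    refine ⟨z, 0, 0, h2 X i z hz, Submodule.zero_mem _, Submodule.zero_mem _, ?_, ?_⟩
    · intro a _
      rw [map_zero, TheoryData.act_zero]
    · rw [TheoryData.act_map_zero, add_zero]
  tfae_have 3 → 1 := by
    rintro ⟨h1, h2⟩
    obtain ⟨h3, h4⟩ := controlled_of_middle hK hcurve h1
    have h5 : ∀ (X : 𝒱.Obj) (i : ℕ), InjectiveOnAlg T X i :=
      ((alg_tfae hT hT').out 0 2).2 fun X Y i j z w hz hw =>
        h4 X Y i j z (homTriv_of_alg hz) w hw
    intro X i z hz
    obtain ⟨a, b, γ, ha, hb, hγ, hkill, rfl⟩ := h2 X i z hz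
    have h6 := h3 X X X.dim i γ hγ hkill b hb
    rw [h6, add_zero] at hz ⊢
    exact h5 X i a ha hz
  tfae_finish

end Pool.Agent.TH127.SW
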